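import Pool.Agent.helper27.PC2.Stmt2
import Pool.Agent.helper31.PC.LEN

/-!
# PC project, second half, module ELL: products of negative cycles are elliptic
-/

set_option linter.all false

namespace Pool.Agent.helper27.PC

theorem ELL_blk {n : ℕ} (w : Equiv.Perm (Fin n × Bool)) (F : Fin n × Bool → ℝ)
    (hodd : ∀ x, F (x.1, !x.2) = - F x) (hinv : ∀ x, F (w x) = F x) (l : List ℕ)
    (hl : ∀ a ∈ l, 1 ≤ a) : ∀ k, k + l.sum ≤ n → LEN_Blk w k l →
      ∀ x : Fin n × Bool, k ≤ x.1.val → x.1.val < k + l.sum → F x = 0 := by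
  induction l with
  | nil =>
    intro k _ _ x h1 h2
    simp at h2
    omega
  | cons a l ih =>
    intro k hk hB x hx hx'
    rw [List.sum_cons] at hk hx'
    have ha : 1 ≤ a := hl a (by simp)
    obtain ⟨h1, h2, h3⟩ := hB
    have hka : k + a ≤ n := by omega
    by_cases hc : x.1.val < k + a
    · have H := LEN_e_cy w k a hka ha h1 h2
      have hconst : ∀ t, F (LEN_e k a hka ha t) = F (LEN_e k a hka ha 0) := by
        intro t
        induction t with
        | zero => rfl
        | succ t iht => rw [H.step t, hinv, iht]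
      have h0 : F (LEN_e k a hka ha 0) = 0 := by
        have e1 := H.half 0
        have e2 := hconst (0 + a)
        rw [e1, hodd] at e2
        linarith
      have hx0 : ∃ t, LEN_e k a hka ha t = x := by
        have hlt : x.1.val - k < a := by omega
        cases hb : x.2
        · refine ⟨(x.1.val - k) + a * 1, ?_⟩
          refine Prod.ext (Fin.ext ?_) ?_
          · simp only [LEN_e]
            rw [Nat.add_mul_mod_self_left, Nat.mod_eq_of_lt hlt]
            omega
          · simp only [LEN_e]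
            rw [Nat.add_mul_div_left _ _ ha, Nat.div_eq_of_lt hlt, hb]
            simp
        · refine ⟨(x.1.val - k), ?_⟩
          refine Prod.ext (Fin.ext ?_) ?_
          · simp only [LEN_e]
            rw [Nat.mod_eq_of_lt hlt]
            omega
          · simp only [LEN_e]
            rw [Nat.div_eq_of_lt hlt, hb]
            simp
      obtain ⟨t, ht⟩ := hx0
      rw [← ht, hconst t, h0]
    · exact ih (fun b hb => hl b (by simp [hb])) (k + a) (by omega) h3 x (by omega) (by omega)

theorem ELL : ELL_stmt := by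
  intro n β w hT hc f hodd hinv
  obtain ⟨hβ, -, -, hsum⟩ := hT
  simp only [List.sum_nil, add_zero] at hsum
  obtain ⟨c, hcw⟩ := isConj_iff.1 hc
  have hstd : ((std2 n β [] : W n) : Equiv.Perm (Fin n × Bool)) = LEN_w n (stdWord 0 β) := by
    unfold std2 word2 LEN_w
    simp [posWord]
  have hcw' : LEN_w n (stdWord 0 β) = (c : Equiv.Perm (Fin n × Bool)) *
      (w : Equiv.Perm (Fin n × Bool)) * (c : Equiv.Perm (Fin n × Bool))⁻¹ := by
    rw [← hstd, ← hcw, Subgroup.coe_mul, Subgroup.coe_mul, Subgroup.coe_inv]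
  obtain ⟨-, -, hB⟩ := LEN_std (n := n) β hβ 0 (by omega)
  have key := ELL_blk (LEN_w n (stdWord 0 β))
    (fun x => f ((c : Equiv.Perm (Fin n × Bool))⁻¹ x)) ?_ ?_ β hβ 0 (by omega) hB
  · funext x
    have h1 := key ((c : Equiv.Perm (Fin n × Bool)) x) (by omega)
      (by have := ((c : Equiv.Perm (Fin n × Bool)) x).1.isLt; omega)
    simpa using h1
  · intro x
    have h1 := mem_W.1 (W n |>.inv_mem c.2) x
    show f ((c : Equiv.Perm (Fin n × Bool))⁻¹ (x.1, !x.2)) = - f ((c : Equiv.Perm (Fin n × Bool))⁻¹ x)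
    rw [h1, hodd]
  · intro x
    show f ((c : Equiv.Perm (Fin n × Bool))⁻¹ (LEN_w n (stdWord 0 β) x)) =
      f ((c : Equiv.Perm (Fin n × Bool))⁻¹ x)
    rw [hcw']
    simp only [Equiv.Perm.mul_apply]
    rw [show (c : Equiv.Perm (Fin n × Bool))⁻¹ ((c : Equiv.Perm (Fin n × Bool))
      ((w : Equiv.Perm (Fin n × Bool)) ((c : Equiv.Perm (Fin n × Bool))⁻¹ x))) =
        (w : Equiv.Perm (Fin n × Bool)) ((c : Equiv.Perm (Fin n × Bool))⁻¹ x) from
      Equiv.symm_apply_apply _ _]
    exact hinv _

end Pool.Agent.helper27.PC
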